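import Pool.Agent.J4H87.DG.Stm

set_option autoImplicit false

/-!
# Project DG, job CRS (helper57): the continuous argument of `FF` along a segment

`t_CRS : Pool.Agent.J4H87.DG.S_CRS`.  For `v = k p + l q` (`p = a - x`, `q = b - x`) the real part of `FF v a b x` is
`(‖p‖ ‖q‖ + p · q) (‖v‖ + k ‖p‖ + l ‖q‖)`.
-/

namespace Pool.Agent.J4H57.DG

open Pool.Agent.Helper683.Lk Pool.Agent.J4H87.DG
open Complex Set

theorem r3_ext {x y : R3} (h0 : x 0 = y 0) (h1 : x 1 = y 1) (h2 : x 2 = y 2) : x = y := by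
  ext i; fin_cases i <;> assumption

theorem dep_of_det3 {u w v : R3} (h : det3 u w v = 0) :
    ∃ k l n : ℝ, k • u + l • w + n • v = 0 ∧ (k ≠ 0 ∨ l ≠ 0 ∨ n ≠ 0) := by
  have hdet : (Matrix.of ![![u 0, u 1, u 2], ![w 0, w 1, w 2], ![v 0, v 1, v 2]]).det = 0 := by
    rw [Matrix.det_fin_three]
    simp only [Matrix.of_apply, Matrix.cons_val_zero, Matrix.cons_val_one, Matrix.cons_val]
    unfold det3 at h
    linarith
  obtain ⟨k, hk, hk0⟩ := Matrix.exists_vecMul_eq_zero_iff.mpr hdet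
  refine ⟨k 0, k 1, k 2, ?_, ?_⟩
  · have e0 := congrFun hk0 0
    have e1 := congrFun hk0 1
    have e2 := congrFun hk0 2
    simp only [Matrix.vecMul, dotProduct, Fin.sum_univ_three, Matrix.of_apply, Matrix.cons_val_zero,
      Matrix.cons_val_one, Matrix.cons_val, Pi.zero_apply] at e0 e1 e2
    apply r3_ext
    · simpa using e0
    · simpa using e1
    · simpa using e2
  · by_contra hc
    push Not at hc
    apply hk
    funext i
    fin_cases i
    · exact hc.1
    · exact hc.2.1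
    · exact hc.2.2

theorem seg_mem (a b : R3) {g : ℝ} (h0 : 0 ≤ g) (h1 : g ≤ 1) : a + g • (b - a) ∈ segment ℝ a b := by
  refine ⟨1 - g, g, by linarith, h0, by ring, ?_⟩
  module

theorem mem_seg {a b x : R3} (h : x ∈ segment ℝ a b) : ∃ g : ℝ, 0 ≤ g ∧ g ≤ 1 ∧ x = a + g • (b - a) := by
  obtain ⟨α, β, h0, h1, h2, rfl⟩ := h
  refine ⟨β, h1, by linarith, ?_⟩
  have : α = 1 - β := by linarith
  rw [this]; module

/-! ### scalar products and norms -/

theorem nsq (x : R3) : ‖x‖ ^ 2 = dot x x := by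
  rw [EuclideanSpace.norm_sq_eq, Fin.sum_univ_three]
  unfold dot
  simp only [Real.norm_eq_abs, sq_abs]
  ring

theorem dot_add_sq (x y : R3) : ‖x + y‖ ^ 2 = ‖x‖ ^ 2 + 2 * dot x y + ‖y‖ ^ 2 := by
  rw [nsq, nsq, nsq]
  unfold dot
  simp only [PiLp.add_apply]
  ring

theorem dot_smul_left (r : ℝ) (x y : R3) : dot (r • x) y = r * dot x y := by
  unfold dot
  simp only [PiLp.smul_apply, smul_eq_mul]
  ring

theorem dot_smul_right (r : ℝ) (x y : R3) : dot x (r • y) = r * dot x y := by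
  unfold dot
  simp only [PiLp.smul_apply, smul_eq_mul]
  ring

theorem dot_add_right (x y z : R3) : dot x (y + z) = dot x y + dot x z := by
  unfold dot
  simp only [PiLp.add_apply]
  ring

theorem dot_comm' (x y : R3) : dot x y = dot y x := by
  unfold dot
  ring

/-- strict Cauchy–Schwarz -/
theorem cs_pos {y z : R3} (hz : z ≠ 0) (h : ∀ r : ℝ, y ≠ r • z) : 0 < ‖y‖ * ‖z‖ + dot y z := by
  have hz' : 0 < ‖z‖ := norm_pos_iff.mpr hz
  have hy : y ≠ 0 := fun e => h 0 (by rw [e, zero_smul])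
  have hy' : 0 < ‖y‖ := norm_pos_iff.mpr hy
  have h1 : ‖z‖ • y + ‖y‖ • z ≠ 0 := by
    intro e
    apply h (-(‖y‖ / ‖z‖))
    have : y = (1 / ‖z‖) • (‖z‖ • y + ‖y‖ • z) - (‖y‖ / ‖z‖) • z := by
      rw [smul_add, smul_smul, smul_smul, one_div, inv_mul_cancel₀ hz'.ne', one_smul]
      rw [show ‖z‖⁻¹ * ‖y‖ = ‖y‖ / ‖z‖ by rw [div_eq_inv_mul]]
      abel
    rw [e, smul_zero, zero_sub] at this
    rw [neg_smul]
    exact this
  have h2 : 0 < ‖‖z‖ • y + ‖y‖ • z‖ ^ 2 := by
    have := norm_pos_iff.mpr h1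
    positivity
  rw [dot_add_sq, norm_smul, norm_smul, dot_smul_left, dot_smul_right, norm_norm, norm_norm] at h2
  have h3 : 0 < 2 * (‖y‖ * ‖z‖) * (‖y‖ * ‖z‖ + dot y z) := by nlinarith
  have h4 : 0 < 2 * (‖y‖ * ‖z‖) := by positivity
  exact (mul_pos_iff_of_pos_left h4).mp h3

/-- strict triangle inequality -/
theorem tri_lt {y z : R3} (hz : z ≠ 0) (h : ∀ r : ℝ, y ≠ r • z) : ‖y + z‖ < ‖y‖ + ‖z‖ := by
  have h1 : 0 < ‖y‖ * ‖(-1 : ℝ) • z‖ + dot y ((-1 : ℝ) • z) := by
    apply cs_pos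
    · simpa using hz
    · intro r e
      exact h (r * (-1)) (by rw [e, smul_smul])
  rw [norm_smul, dot_smul_right, norm_neg, norm_one, one_mul] at h1
  have h2 := dot_add_sq y z
  have h3 : ‖y + z‖ ^ 2 < (‖y‖ + ‖z‖) ^ 2 := by nlinarith
  exact lt_of_pow_lt_pow_left₀ 2 (by positivity) h3

/-- the real part for `v = k p + l q` -/
theorem re_formula {v p q : R3} {k l : ℝ} (h : v = k • p + l • q) :
    ‖p‖ * ‖q‖ * ‖v‖ + dot p q * ‖v‖ + dot q v * ‖p‖ + dot p v * ‖q‖ =
      (‖p‖ * ‖q‖ + dot p q) * (‖v‖ + k * ‖p‖ + l * ‖q‖) := by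
  have e1 : dot q v = k * dot p q + l * ‖q‖ ^ 2 := by
    rw [h, dot_add_right, dot_smul_right, dot_smul_right, nsq, dot_comm' q p]
  have e2 : dot p v = k * ‖p‖ ^ 2 + l * dot p q := by
    rw [h, dot_add_right, dot_smul_right, dot_smul_right, nsq]
  rw [e1, e2]
  ring

/-- the sign of the real part for `v = k p + l q`, `p`, `q` not multiples of `v` -/
theorem cs_pq {v p q : R3} {k l : ℝ} (hv : v ≠ 0) (hq : ∀ r : ℝ, q ≠ r • v)
    (h : v = k • p + l • q) : q ≠ 0 ∧ ∀ r : ℝ, p ≠ r • q := by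
  have hq0 : q ≠ 0 := fun e => hq 0 (by rw [e, zero_smul])
  refine ⟨hq0, fun r e => ?_⟩
  have h1 : v = (k * r + l) • q := by rw [h, e]; module
  have h2 : k * r + l ≠ 0 := by
    intro h3
    rw [h3, zero_smul] at h1
    exact hv h1
  apply hq (k * r + l)⁻¹
  rw [h1, smul_smul, inv_mul_cancel₀ h2, one_smul]

theorem re_neg {v p q : R3} {k l : ℝ} (hv : v ≠ 0) (hq : ∀ r : ℝ, q ≠ r • v)
    (h : v = k • p + l • q) (hk : k < 0) (hl : l < 0) :
    ‖p‖ * ‖q‖ * ‖v‖ + dot p q * ‖v‖ + dot q v * ‖p‖ + dot p v * ‖q‖ < 0 := by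
  rw [re_formula h]
  obtain ⟨hq0, hpq⟩ := cs_pq hv hq h
  have h1 := cs_pos hq0 hpq
  have h2 : ‖v‖ < -k * ‖p‖ + -l * ‖q‖ := by
    have h3 : ‖k • p + l • q‖ < ‖k • p‖ + ‖l • q‖ := by
      apply tri_lt
      · exact smul_ne_zero hl.ne hq0
      · intro r e
        apply hpq (k⁻¹ * (r * l))
        rw [← smul_smul, ← smul_smul, ← e, smul_smul, inv_mul_cancel₀ hk.ne, one_smul]
    rw [← h, norm_smul, norm_smul, Real.norm_eq_abs, Real.norm_eq_abs, abs_of_neg hk, abs_of_neg hl] at h3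
    exact h3
  apply mul_neg_of_pos_of_neg h1
  linarith

theorem re_pos {v p q : R3} {k l : ℝ} (hv : v ≠ 0) (hp : ∀ r : ℝ, p ≠ r • v) (hq : ∀ r : ℝ, q ≠ r • v)
    (h : v = k • p + l • q) (hkl : ¬ (k < 0 ∧ l < 0)) :
    0 < ‖p‖ * ‖q‖ * ‖v‖ + dot p q * ‖v‖ + dot q v * ‖p‖ + dot p v * ‖q‖ := by
  rw [re_formula h]
  obtain ⟨hq0, hpq⟩ := cs_pq hv hq h
  have h1 := cs_pos hq0 hpq
  have hp0 : p ≠ 0 := fun e => hp 0 (by rw [e, zero_smul])
  have hvpos : 0 < ‖v‖ := norm_pos_iff.mpr hv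
  have hppos : 0 < ‖p‖ := norm_pos_iff.mpr hp0
  have hqpos : 0 < ‖q‖ := norm_pos_iff.mpr hq0
  apply mul_pos h1
  rcases le_or_gt 0 k with hk | hk
  · rcases le_or_gt 0 l with hl | hl
    · positivity
    · rcases hk.eq_or_lt with hk0 | hk0
      · exfalso
        apply hq l⁻¹
        rw [h, ← hk0, zero_smul, zero_add, smul_smul, inv_mul_cancel₀ hl.ne, one_smul]
      · have h2 : ‖(-k) • p + v‖ < ‖(-k) • p‖ + ‖v‖ := by
          apply tri_lt hv
          intro r e
          apply hp ((-k)⁻¹ * r)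
          rw [← smul_smul, ← e, smul_smul, inv_mul_cancel₀ (neg_ne_zero.mpr hk0.ne'), one_smul]
        have h3 : (-k) • p + v = l • q := by rw [h]; module
        rw [h3, norm_smul, norm_smul, Real.norm_eq_abs, Real.norm_eq_abs, abs_of_neg hl, abs_neg,
          abs_of_pos hk0] at h2
        linarith
  · have hl : 0 ≤ l := by
      by_contra hc
      exact hkl ⟨hk, not_le.mp hc⟩
    rcases hl.eq_or_lt with hl0 | hl0
    · exfalso
      apply hp k⁻¹
      rw [h, ← hl0, zero_smul, add_zero, smul_smul, inv_mul_cancel₀ hk.ne, one_smul]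
    · have h2 : ‖(-l) • q + v‖ < ‖(-l) • q‖ + ‖v‖ := by
        apply tri_lt hv
        intro r e
        apply hq ((-l)⁻¹ * r)
        rw [← smul_smul, ← e, smul_smul, inv_mul_cancel₀ (neg_ne_zero.mpr hl0.ne'), one_smul]
      have h3 : (-l) • q + v = k • p := by rw [h]; module
      rw [h3, norm_smul, norm_smul, Real.norm_eq_abs, Real.norm_eq_abs, abs_of_neg hk, abs_neg,
        abs_of_pos hl0] at h2
      linarith

/-- if the determinant vanishes and the real part is not positive then a point of the segment is below `x` -/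
theorem below {v a b x : R3} (hv : v ≠ 0) (ha : ∀ r : ℝ, a ≠ x + r • v) (hb : ∀ r : ℝ, b ≠ x + r • v)
    (hx : x ∉ segment ℝ a b) (hN : det3 (a - x) (b - x) v = 0)
    (hD : ‖a - x‖ * ‖b - x‖ * ‖v‖ + dot (a - x) (b - x) * ‖v‖ + dot (b - x) v * ‖a - x‖ + dot (a - x) v * ‖b - x‖ ≤ 0) :
    ∃ s : ℝ, 0 ≤ s ∧ s ≤ 1 ∧ ∃ h : ℝ, 0 < h ∧ x = a + s • (b - a) + h • v := by
  have hp : ∀ r : ℝ, a - x ≠ r • v := fun r e => ha r (by rw [← e]; abel)
  have hq : ∀ r : ℝ, b - x ≠ r • v := fun r e => hb r (by rw [← e]; abel)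
  generalize hpe : a - x = p at *
  generalize hqe : b - x = q at *
  have hp0 : p ≠ 0 := fun e => hp 0 (by rw [e, zero_smul])
  have hq0 : q ≠ 0 := fun e => hq 0 (by rw [e, zero_smul])
  obtain ⟨k, l, n, hlin, hne⟩ := dep_of_det3 hN
  by_cases hn : n = 0
  · exfalso
    rw [hn, zero_smul, add_zero] at hlin
    have hk : k ≠ 0 := by
      intro hk
      rw [hk, zero_smul, zero_add] at hlin
      have hl : l ≠ 0 := by
        rcases hne with h | h | h
        · exact absurd hk h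
        · exact h
        · exact absurd hn h
      exact hq0 ((smul_eq_zero.mp hlin).resolve_left hl)
    have hl : l ≠ 0 := by
      intro hl
      rw [hl, zero_smul, add_zero] at hlin
      exact hp0 ((smul_eq_zero.mp hlin).resolve_left hk)
    have hqp : q = (-(k / l)) • p := by
      have : q = l⁻¹ • (k • p + l • q) - (k / l) • p := by
        rw [smul_add, smul_smul, smul_smul, inv_mul_cancel₀ hl, one_smul, div_eq_inv_mul]
        abel
      rw [this, hlin, smul_zero, zero_sub, neg_smul]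
    set μ := -(k / l) with hμ
    have hμ0 : μ ≠ 0 := by rw [hμ]; exact neg_ne_zero.mpr (div_ne_zero hk hl)
    rcases lt_or_gt_of_ne hμ0 with h | h
    · apply hx
      refine ⟨-μ / (1 - μ), 1 / (1 - μ), ?_, ?_, ?_, ?_⟩
      · apply div_nonneg <;> linarith
      · apply div_nonneg <;> linarith
      · rw [← add_div, div_eq_one_iff_eq (by linarith)]
        ring
      · have hax : a = p + x := by rw [← hpe]; abel
        have hbx : b = μ • p + x := by rw [← hqp, ← hqe]; abel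
        have h1 : (1 - μ) ≠ 0 := by linarith
        rw [hax, hbx, smul_add, smul_add, smul_smul]
        have e1 : -μ / (1 - μ) + 1 / (1 - μ) * μ = 0 := by field_simp; ring
        have e2 : -μ / (1 - μ) + 1 / (1 - μ) = 1 := by field_simp; ring
        calc (-μ / (1 - μ)) • p + (-μ / (1 - μ)) • x + ((1 / (1 - μ) * μ) • p + (1 / (1 - μ)) • x)
            = (-μ / (1 - μ) + 1 / (1 - μ) * μ) • p + (-μ / (1 - μ) + 1 / (1 - μ)) • x := by module
          _ = x := by rw [e1, e2, zero_smul, one_smul, zero_add]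
    · have h1 := cs_pos hv hp
      have e1 : ‖q‖ = μ * ‖p‖ := by rw [hqp, norm_smul, Real.norm_eq_abs, abs_of_pos h]
      have e2 : dot p q = μ * ‖p‖ ^ 2 := by rw [hqp, dot_smul_right, nsq]
      have e3 : dot q v = μ * dot p v := by rw [hqp, dot_smul_left]
      rw [e1, e2, e3] at hD
      have h2 : 0 < ‖p‖ := norm_pos_iff.mpr hp0
      have h3 : 0 < 2 * μ * ‖p‖ * (‖p‖ * ‖v‖ + dot p v) := by positivity
      nlinarith
  · have hve : v = (-(k / n)) • p + (-(l / n)) • q := by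
      have : v = n⁻¹ • (k • p + l • q + n • v) - (k / n) • p - (l / n) • q := by
        rw [smul_add, smul_add, smul_smul, smul_smul, smul_smul, inv_mul_cancel₀ hn, one_smul, div_eq_inv_mul,
          div_eq_inv_mul]
        abel
      rw [hlin, smul_zero, zero_sub] at this
      rw [neg_smul, neg_smul]
      rw [this]
      module
    set κ := -(k / n) with hκ
    set μ := -(l / n) with hμ
    have hneg : κ < 0 ∧ μ < 0 := by
      by_contra hc
      exact absurd hD (not_le.mpr (re_pos hv hp hq hve hc))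
    obtain ⟨h1, h2⟩ := hneg
    have hs : κ + μ < 0 := by linarith
    refine ⟨μ / (κ + μ), ?_, ?_, -(κ + μ)⁻¹, ?_, ?_⟩
    · exact div_nonneg_of_nonpos h2.le hs.le
    · rw [div_le_one_of_neg hs]; linarith
    · rw [neg_pos]; exact inv_lt_zero.mpr hs
    · have hax : a = p + x := by rw [← hpe]; abel
      have hbx : b = q + x := by rw [← hqe]; abel
      have h3 : κ + μ ≠ 0 := hs.ne
      rw [hax, hbx]
      have e0 : q + x - (p + x) = q - p := by abel
      rw [e0]
      have e1 : (-(κ + μ)⁻¹) • v = -((κ / (κ + μ)) • p + (μ / (κ + μ)) • q) := by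
        nth_rewrite 1 [hve]
        rw [smul_add, smul_smul, smul_smul, div_eq_mul_inv, div_eq_mul_inv]
        module
      rw [e1]
      have e2 : κ / (κ + μ) = 1 - μ / (κ + μ) := by field_simp; ring
      rw [e2]
      module

/-- the real part is negative at a crossing -/
theorem above {v a b x : R3} (hv : v ≠ 0) (ha : ∀ r : ℝ, a ≠ x + r • v) (hb : ∀ r : ℝ, b ≠ x + r • v)
    {s h : ℝ} (hs : 0 < s ∧ s < 1) (hh : 0 < h) (he : x = a + s • (b - a) + h • v) :
    det3 (a - x) (b - x) v = 0 ∧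
    ‖a - x‖ * ‖b - x‖ * ‖v‖ + dot (a - x) (b - x) * ‖v‖ + dot (b - x) v * ‖a - x‖ + dot (a - x) v * ‖b - x‖ < 0 := by
  have hp : ∀ r : ℝ, a - x ≠ r • v := fun r e => ha r (by rw [← e]; abel)
  have hq : ∀ r : ℝ, b - x ≠ r • v := fun r e => hb r (by rw [← e]; abel)
  have h1 : v = (-((1 - s) / h)) • (a - x) + (-(s / h)) • (b - x) := by
    have h2 : h • v = (-(1 - s)) • (a - x) + (-s) • (b - x) := by
      have h3 : h • v = x - (a + s • (b - a)) := by
        nth_rewrite 1 [he]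
        abel
      rw [h3]
      module
    have h4 : v = h⁻¹ • (h • v) := by rw [smul_smul, inv_mul_cancel₀ hh.ne', one_smul]
    rw [h4, h2, smul_add, smul_smul, smul_smul]
    congr 2 <;> (field_simp)
  constructor
  · generalize a - x = p at h1
    generalize b - x = q at h1
    rw [h1]
    unfold det3
    simp only [PiLp.add_apply, PiLp.smul_apply, smul_eq_mul]
    ring
  · apply re_neg hv hq h1
    · rw [neg_lt_zero]; apply div_pos <;> linarith
    · rw [neg_lt_zero]; apply div_pos <;> linarith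

/-- the affine dependence of the imaginary part on the parameter -/
theorem det_affine (v a b c d : R3) (t t₀ : ℝ) :
    det3 (a - (c + t • (d - c))) (b - (c + t • (d - c))) v =
      det3 (a - (c + t₀ • (d - c))) (b - (c + t₀ • (d - c))) v - (t - t₀) * det3 (d - c) (b - a) v := by
  unfold det3
  simp only [PiLp.add_apply, PiLp.sub_apply, PiLp.smul_apply, smul_eq_mul]
  ring

theorem continuous_FF (v a b c d : R3) : Continuous fun t : ℝ => FF v a b (c + t • (d - c)) := by
  unfold FF dot det3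
  fun_prop

theorem FF_re (v a b x : R3) : (FF v a b x).re =
    ‖a - x‖ * ‖b - x‖ * ‖v‖ + dot (a - x) (b - x) * ‖v‖ + dot (b - x) v * ‖a - x‖ + dot (a - x) v * ‖b - x‖ := by
  unfold FF
  simp

theorem FF_im (v a b x : R3) : (FF v a b x).im = det3 (a - x) (b - x) v := by
  unfold FF
  simp

/-- leaving the unit square along a line -/
theorem exit_square {g s k l : ℝ} (hg : 0 < g ∧ g < 1) (hs : 0 < s ∧ s < 1) (hk : k ≠ 0 ∨ l ≠ 0) :
    ∃ τ : ℝ, (0 ≤ g + τ * k ∧ g + τ * k ≤ 1) ∧ (0 ≤ s + τ * l ∧ s + τ * l ≤ 1) ∧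
      (g + τ * k = 0 ∨ g + τ * k = 1 ∨ s + τ * l = 0 ∨ s + τ * l = 1) := by
  let m : ℝ → ℝ := fun τ => min (min (g + τ * k) (1 - (g + τ * k))) (min (s + τ * l) (1 - (s + τ * l)))
  have hm : Continuous m := by fun_prop
  have h0 : 0 < m 0 := by
    simp only [m, zero_mul, add_zero, lt_min_iff]
    exact ⟨⟨hg.1, by linarith [hg.2]⟩, hs.1, by linarith [hs.2]⟩
  obtain ⟨T, hT⟩ : ∃ T, m T < 0 := by
    rcases hk with hk | hk
    · refine ⟨1 / k, ?_⟩
      have : 1 - (g + 1 / k * k) < 0 := by field_simp; linarith [hg.1]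
      exact lt_of_le_of_lt ((min_le_left _ _).trans (min_le_right _ _)) this
    · refine ⟨1 / l, ?_⟩
      have : 1 - (s + 1 / l * l) < 0 := by field_simp; linarith [hs.1]
      exact lt_of_le_of_lt ((min_le_right _ _).trans (min_le_right _ _)) this
  have hiv := intermediate_value_uIcc (f := m) (a := 0) (b := T) hm.continuousOn
  have hmem : (0 : ℝ) ∈ Set.uIcc (m 0) (m T) := by
    rw [Set.mem_uIcc]; right; exact ⟨hT.le, h0.le⟩
  obtain ⟨τ, _, hτ⟩ := hiv hmem
  have e : min (min (g + τ * k) (1 - (g + τ * k))) (min (s + τ * l) (1 - (s + τ * l))) = 0 := hτ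
  have a1 : 0 ≤ g + τ * k := by rw [← e]; exact (min_le_left _ _).trans (min_le_left _ _)
  have a2 : 0 ≤ 1 - (g + τ * k) := by rw [← e]; exact (min_le_left _ _).trans (min_le_right _ _)
  have a3 : 0 ≤ s + τ * l := by rw [← e]; exact (min_le_right _ _).trans (min_le_left _ _)
  have a4 : 0 ≤ 1 - (s + τ * l) := by rw [← e]; exact (min_le_right _ _).trans (min_le_right _ _)
  refine ⟨τ, ⟨a1, by linarith⟩, ⟨a3, by linarith⟩, ?_⟩
  rcases min_choice (min (g + τ * k) (1 - (g + τ * k))) (min (s + τ * l) (1 - (s + τ * l))) with h | h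
  · rw [h] at e
    rcases min_choice (g + τ * k) (1 - (g + τ * k)) with h' | h'
    · rw [h'] at e; left; exact e
    · rw [h'] at e; right; left; linarith
  · rw [h] at e
    rcases min_choice (s + τ * l) (1 - (s + τ * l)) with h' | h'
    · rw [h'] at e; right; right; left; exact e
    · rw [h'] at e; right; right; right; linarith

theorem det_ne {v a b c d : R3} (hv : v ≠ 0) (hreg : RP v a b c d) {g s h : ℝ}
    (hg : 0 ≤ g ∧ g ≤ 1) (hs : 0 ≤ s ∧ s ≤ 1) (he : a + g • (b - a) = c + s • (d - c) + h • v) :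
    (0 < g ∧ g < 1) ∧ (0 < s ∧ s < 1) ∧ det3 (b - a) (d - c) v ≠ 0 := by
  have key : ∀ g s h : ℝ, 0 ≤ g ∧ g ≤ 1 → 0 ≤ s ∧ s ≤ 1 →
      a + g • (b - a) = c + s • (d - c) + h • v → g ≠ 0 ∧ g ≠ 1 ∧ s ≠ 0 ∧ s ≠ 1 := by
    intro g s h hg hs he
    have m1 := seg_mem a b hg.1 hg.2
    have m2 := seg_mem c d hs.1 hs.2
    refine ⟨?_, ?_, ?_, ?_⟩
    · rintro rfl
      apply (hreg.1 _ m2 h).1
      rw [← he]; module
    · rintro rfl
      apply (hreg.1 _ m2 h).2
      rw [← he]; module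
    · rintro rfl
      apply (hreg.2 _ m1 (-h)).1
      rw [he]; module
    · rintro rfl
      apply (hreg.2 _ m1 (-h)).2
      rw [he]; module
  obtain ⟨k1, k2, k3, k4⟩ := key g s h hg hs he
  have hg' : 0 < g ∧ g < 1 := ⟨lt_of_le_of_ne hg.1 k1.symm, lt_of_le_of_ne hg.2 k2⟩
  have hs' : 0 < s ∧ s < 1 := ⟨lt_of_le_of_ne hs.1 k3.symm, lt_of_le_of_ne hs.2 k4⟩
  refine ⟨hg', hs', ?_⟩
  intro hdet
  obtain ⟨k, l, n, hlin, hne⟩ := dep_of_det3 hdet
  have hkl : k ≠ 0 ∨ -l ≠ 0 := by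
    by_contra hc
    push Not at hc
    have hl : l = 0 := by linarith [hc.2]
    rw [hc.1, hl, zero_smul, zero_smul, zero_add, zero_add] at hlin
    have hn : n ≠ 0 := by
      rcases hne with h | h | h
      · exact absurd hc.1 h
      · exact absurd hl h
      · exact h
    exact hv ((smul_eq_zero.mp hlin).resolve_left hn)
  obtain ⟨τ, t1, t2, t3⟩ := exit_square hg' hs' hkl
  have he' : a + (g + τ * k) • (b - a) = c + (s + τ * (-l)) • (d - c) + (h - τ * n) • v := by
    have : a + (g + τ * k) • (b - a) - (c + (s + τ * (-l)) • (d - c) + (h - τ * n) • v) =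
      (a + g • (b - a) - (c + s • (d - c) + h • v)) + τ • (k • (b - a) + l • (d - c) + n • v) := by
      module
    rw [he, hlin, sub_self, smul_zero, add_zero, sub_eq_zero] at this
    exact this
  obtain ⟨q1, q2, q3, q4⟩ := key _ _ _ t1 t2 he'
  rcases t3 with h | h | h | h
  · exact q1 h
  · exact q2 h
  · exact q3 h
  · exact q4 h

/-- the sign of `-1` as an exponential -/
theorem exp_shift (z : ℂ) (ε : ℝ) (hε : ε = 1 ∨ ε = -1) :
    z = (‖z‖ : ℂ) * exp (((arg (-z) + ε * Real.pi : ℝ) : ℂ) * I) := by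
  have h1 := norm_mul_exp_arg_mul_I (-z)
  rw [norm_neg] at h1
  have h2 : exp (((ε * Real.pi : ℝ) : ℂ) * I) = -1 := by
    rcases hε with rfl | rfl
    · rw [one_mul, exp_pi_mul_I]
    · push_cast
      rw [show (-1 * (Real.pi : ℂ)) * I = -((Real.pi : ℂ) * I) by ring, exp_neg, exp_pi_mul_I]
      norm_num
  rw [ofReal_add, add_mul, exp_add, h2, ← mul_assoc, h1]
  ring

theorem t_CRS : S_CRS := by
  intro v a b c d hv hreg hdis
  have hra : ∀ t ∈ Icc (0 : ℝ) 1, ∀ r : ℝ, a ≠ (c + t • (d - c)) + r • v := fun t ht r =>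
    (hreg.2 _ (seg_mem c d ht.1 ht.2) r).1
  have hrb : ∀ t ∈ Icc (0 : ℝ) 1, ∀ r : ℝ, b ≠ (c + t • (d - c)) + r • v := fun t ht r =>
    (hreg.2 _ (seg_mem c d ht.1 ht.2) r).2
  have hns : ∀ t ∈ Icc (0 : ℝ) 1, (c + t • (d - c)) ∉ segment ℝ a b := fun t ht h =>
    Set.disjoint_left.mp hdis (seg_mem c d ht.1 ht.2) h
  have hcont := continuous_FF v a b c d
  have hI0 : (0 : ℝ) ∈ Icc (0 : ℝ) 1 := ⟨le_rfl, zero_le_one⟩
  have hI1 : (1 : ℝ) ∈ Icc (0 : ℝ) 1 := ⟨zero_le_one, le_rfl⟩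
  have hx0 : c + (0 : ℝ) • (d - c) = c := by module
  have hx1 : c + (1 : ℝ) • (d - c) = d := by module
  by_cases hO : Over v c d a b
  · have hO' := hO
    obtain ⟨x, hx, y, hy, h, hh, hxy⟩ := hO
    obtain ⟨t₀, ht0, ht1, rfl⟩ := mem_seg hx
    obtain ⟨s, hs0, hs1, rfl⟩ := mem_seg hy
    obtain ⟨ht, hs, hdet⟩ := det_ne hv hreg ⟨ht0, ht1⟩ ⟨hs0, hs1⟩ hxy
    have hT : t₀ ∈ Icc (0 : ℝ) 1 := ⟨ht0, ht1⟩
    obtain ⟨hN0, hD0⟩ := above hv (hra t₀ hT) (hrb t₀ hT) hs hh hxy
    have him : ∀ t : ℝ, (FF v a b (c + t • (d - c))).im = -(t - t₀) * det3 (d - c) (b - a) v := by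
      intro t
      rw [FF_im, det_affine v a b c d t t₀, hN0]
      ring
    have hre0 : (FF v a b (c + t₀ • (d - c))).re < 0 := by rw [FF_re]; exact hD0
    have hslit : ∀ t : ℝ, -(FF v a b (c + t • (d - c))) ∈ slitPlane := by
      intro t
      rw [mem_slitPlane_iff]
      by_cases e : t = t₀
      · left
        rw [e, neg_re]
        linarith
      · right
        rw [neg_im, him t]
        exact neg_ne_zero.mpr (mul_ne_zero (neg_ne_zero.mpr (sub_ne_zero.mpr e)) hdet)
    have hne : ∀ t : ℝ, FF v a b (c + t • (d - c)) ≠ 0 := by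
      intro t e
      have := hslit t
      rw [e, neg_zero] at this
      exact zero_notMem_slitPlane this
    have hac : Continuous fun t : ℝ => arg (-(FF v a b (c + t • (d - c)))) := by
      rw [continuous_iff_continuousAt]
      intro t
      exact (continuousAt_arg (hslit t)).comp (f := fun t : ℝ => -(FF v a b (c + t • (d - c)))) hcont.neg.continuousAt
    have hcs : crossSign v c d a b = (SignType.sign (det3 (d - c) (b - a) v) : ℤ) := by
      unfold crossSign
      rw [if_pos hO']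
    have him0 := him 0
    have him1 := him 1
    rw [hx0] at him0
    rw [hx1] at him1
    rcases lt_or_gt_of_ne hdet with hσ | hσ
    · -- slope of the imaginary part positive
      refine ⟨fun t => arg (-(FF v a b (c + t • (d - c)))) + (-1) * Real.pi, ?_, ?_, ?_, ?_⟩
      · exact (hac.add continuous_const).continuousOn
      · intro t _
        exact ⟨hne t, exp_shift _ (-1) (Or.inr rfl)⟩
      · show arg (-(FF v a b (c + (0 : ℝ) • (d - c)))) + (-1) * Real.pi = _
        rw [hx0, arg_neg_eq_arg_add_pi_of_im_neg]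
        · ring
        · rw [him0]; nlinarith
      · show arg (-(FF v a b (c + (1 : ℝ) • (d - c)))) + (-1) * Real.pi = _
        rw [hx1, arg_neg_eq_arg_sub_pi_of_im_pos, hcs, sign_neg hσ]
        · simp only [SignType.coe_neg, SignType.coe_one]
          push_cast
          ring
        · rw [him1]; nlinarith
    · refine ⟨fun t => arg (-(FF v a b (c + t • (d - c)))) + 1 * Real.pi, ?_, ?_, ?_, ?_⟩
      · exact (hac.add continuous_const).continuousOn
      · intro t _
        exact ⟨hne t, exp_shift _ 1 (Or.inl rfl)⟩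
      · show arg (-(FF v a b (c + (0 : ℝ) • (d - c)))) + 1 * Real.pi = _
        rw [hx0, arg_neg_eq_arg_sub_pi_of_im_pos]
        · ring
        · rw [him0]; nlinarith
      · show arg (-(FF v a b (c + (1 : ℝ) • (d - c)))) + 1 * Real.pi = _
        rw [hx1, arg_neg_eq_arg_add_pi_of_im_neg, hcs, sign_pos hσ]
        · simp only [SignType.coe_one]
          push_cast
          ring
        · rw [him1]; nlinarith
  · have hslit : ∀ t ∈ Icc (0 : ℝ) 1, FF v a b (c + t • (d - c)) ∈ slitPlane := by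
      intro t ht
      rw [mem_slitPlane_iff]
      by_contra hc
      push Not at hc
      obtain ⟨hre, him⟩ := hc
      rw [FF_re] at hre
      rw [FF_im] at him
      obtain ⟨s, hs0, hs1, h, hh, he⟩ := below hv (hra t ht) (hrb t ht) (hns t ht) him hre
      exact hO ⟨_, seg_mem c d ht.1 ht.2, _, seg_mem a b hs0 hs1, h, hh, he⟩
    have hcs : crossSign v c d a b = 0 := by
      unfold crossSign
      rw [if_neg hO]
    refine ⟨fun t => arg (FF v a b (c + t • (d - c))), ?_, ?_, ?_, ?_⟩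
    · intro t ht
      exact ((continuousAt_arg (hslit t ht)).comp (f := fun t : ℝ => FF v a b (c + t • (d - c)))
        hcont.continuousAt).continuousWithinAt
    · intro t ht
      exact ⟨slitPlane_ne_zero (hslit t ht), (norm_mul_exp_arg_mul_I _).symm⟩
    · show arg (FF v a b (c + (0 : ℝ) • (d - c))) = _
      rw [hx0]
    · show arg (FF v a b (c + (1 : ℝ) • (d - c))) = _
      rw [hx1, hcs]
      simp

end Pool.Agent.J4H57.DG
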